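import Pool.Agent.NL.StmtsA

set_option autoImplicit false

open MeasureTheory Filter Topology

noncomputable section

namespace Pool.Agent.NL.H47

theorem l1_zero : l1 0 = 0 := by simp [l1]

theorem l1_eq {x : ℝ →₀ ℝ} {s : Finset ℝ} (hs : x.support ⊆ s) : l1 x = ∑ r ∈ s, |x r| :=
  Finsupp.sum_of_support_subset x hs _ (by simp)

theorem l1_add (x y : ℝ →₀ ℝ) : l1 (x + y) ≤ l1 x + l1 y := by
  classical
  have h1 : (x + y).support ⊆ x.support ∪ y.support := Finsupp.support_add
  rw [l1_eq h1, l1_eq (Finset.subset_union_left : x.support ⊆ x.support ∪ y.support),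
    l1_eq (Finset.subset_union_right : y.support ⊆ x.support ∪ y.support),
    ← Finset.sum_add_distrib]
  exact Finset.sum_le_sum fun r _ => by simpa using abs_add_le (x r) (y r)

theorem l1_smul (c : ℝ) (x : ℝ →₀ ℝ) : l1 (c • x) = |c| * l1 x := by
  rw [l1_eq (Finsupp.support_smul : (c • x).support ⊆ x.support), l1_eq (subset_refl x.support),
    Finset.mul_sum]
  exact Finset.sum_congr rfl fun r _ => by simp [abs_mul]

theorem l1_single (r c : ℝ) : l1 (Finsupp.single r c) = |c| := by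
  simp [l1]

theorem l1_mapDomain (f : ℝ → ℝ) (x : ℝ →₀ ℝ) : l1 (Finsupp.mapDomain f x) ≤ l1 x := by
  unfold Finsupp.mapDomain Finsupp.sum
  refine (Finset.le_sum_of_subadditive l1 l1_zero.le l1_add _ _).trans ?_
  rw [l1_eq (subset_refl x.support)]
  exact Finset.sum_le_sum fun r _ => by rw [l1_single]

theorem l1_pb {p : ℝ →₀ ℝ} (hp : Pb p) : l1 p = 1 := by
  rw [← hp.2]
  unfold l1 Finsupp.sum
  exact Finset.sum_congr rfl fun r _ => abs_of_nonneg (hp.1 r)

theorem V_eq (G : ℝ → Z) (p : ℝ →₀ ℝ) : V G p = ∑ r ∈ p.support, p r • G r := by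
  unfold V
  rw [Finsupp.linearCombination_apply, Finsupp.sum]

theorem V_map (G : ℝ → Z) (f : ℝ → ℝ) (p : ℝ →₀ ℝ) :
    V G (Finsupp.mapDomain f p) = ∑ r ∈ p.support, p r • G (f r) := by
  unfold V
  rw [Finsupp.linearCombination_mapDomain, Finsupp.linearCombination_apply, Finsupp.sum]
  rfl

theorem map_support (f : ℝ → ℝ) (p : ℝ →₀ ℝ) :
    (Finsupp.mapDomain f p).support ⊆ p.support.image f := by
  classical
  exact Finsupp.mapDomain_support

theorem map_apply {f : ℝ → ℝ} {p : ℝ →₀ ℝ} (hf : Set.InjOn f (p.support : Set ℝ)) {r : ℝ}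
    (hr : r ∈ p.support) : Finsupp.mapDomain f p (f r) = p r := by
  classical
  have : Finsupp.mapDomain f p (f r) = ∑ s ∈ p.support, Finsupp.single (f s) (p s) (f r) := by
    unfold Finsupp.mapDomain Finsupp.sum
    rw [Finsupp.finsetSum_apply]
  rw [this, Finset.sum_eq_single r]
  · simp
  · intro s hs hsr
    rw [Finsupp.single_apply, if_neg]
    intro h
    exact hsr (hf hs hr h)
  · intro h
    exact absurd hr h

theorem T_mono {X : Type} [NormedAddCommGroup X] [NormedSpace ℝ X]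
    {G : ℝ → Z} {Ψ : X →ₗᵢ[ℝ] Z} {a ε : ℝ} {W : Finset ℝ} {q : ℝ →₀ ℝ} {E : Submodule ℝ X} {N : ℕ}
    {ϖ : ℕ → ℝ} {J φ : ℕ → ℝ → ℝ} {T : ℕ → Finset ℝ} {y : ℝ → X}
    (h : Mv G Ψ a ε W q E N ϖ J φ T y) : ∀ i, i ≤ N → T 0 ⊆ T i := by
  intro i
  induction i with
  | zero => intro _; exact subset_refl _
  | succ i ih =>
    intro hi
    rw [h.suc i (by omega)]
    exact (ih (by omega)).trans Finset.subset_union_left

section

variable {X : Type} [NormedAddCommGroup X] [NormedSpace ℝ X]
  {G : ℝ → Z} {Ψ : X →ₗᵢ[ℝ] Z} {a : ℝ} {n u : ℕ} {q : ℕ → ℝ →₀ ℝ} {W : Finset ℝ}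

theorem bo_apply (c : ℕ → ℝ) (r : ℝ) :
    bo n u c q r = ∑ i ∈ (Finset.range n).erase u, c i * q i r := by
  unfold bo
  rw [Finsupp.finsetSum_apply]
  simp

theorem bo_zero_out (hc : Cfg G Ψ a n q W) (c : ℕ → ℝ) {s : ℝ} (hs : s ∉ W) :
    bo n u c q s = 0 := by
  rw [bo_apply]
  refine Finset.sum_eq_zero fun i hi => ?_
  rw [Finset.mem_erase, Finset.mem_range] at hi
  have : q i s = 0 := by
    by_contra h
    exact hs (hc.sub i hi.2 (Finsupp.mem_support_iff.2 h))
  rw [this, mul_zero]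

theorem bo_zero_in (hc : Cfg G Ψ a n q W) (hu : u < n) (c : ℕ → ℝ) {r : ℝ}
    (hr : r ∈ (q u).support) : bo n u c q r = 0 := by
  rw [bo_apply]
  refine Finset.sum_eq_zero fun i hi => ?_
  rw [Finset.mem_erase, Finset.mem_range] at hi
  have : q i r = 0 := by
    by_contra h
    exact Finset.disjoint_left.1 (hc.dis i hi.2 u hu hi.1) (Finsupp.mem_support_iff.2 h) hr
  rw [this, mul_zero]

theorem bo_support (hc : Cfg G Ψ a n q W) (c : ℕ → ℝ) : (bo n u c q).support ⊆ W := by
  intro s hs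
  by_contra h
  exact (Finsupp.mem_support_iff.1 hs) (bo_zero_out hc c h)

end

theorem aup (hAkb : AkbStmt) : AupStmt := by
  classical
  intro X _ _ f F G Ψ a ε n u q W E N ϖ J φ T y hS τ hτ0 hτ1 c A i hi z hz
  have hc := hS.cfg
  have hmv := hS.mv
  have hu := hS.hu
  have hN : 2 ≤ N := hmv.two
  have hpb := hc.pb u hu
  have hRW := hc.sub u hu
  have hJW : ∀ r ∈ (q u).support, J i r ∉ W := fun r hr => (hmv.Jm i hi r hr).2
  have hJinj : Set.InjOn (J i) ((q u).support : Set ℝ) := by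
    intro r hr r' hr' h
    exact hmv.Jd i hi i hi r hr r' hr' h
  set p := q u with hp
  set b0 := bo n u c q with hb0
  have hb0W : b0.support ⊆ W := bo_support hc c
  have hb0R : ∀ r ∈ p.support, b0 r = 0 := fun r hr => bo_zero_in hc hu c hr
  -- the first vector
  set b' := b0 + A • p with hb'
  have hb'W : b'.support ⊆ W := by
    refine Finsupp.support_add.trans (Finset.union_subset hb0W ?_)
    exact Finsupp.support_smul.trans hRW
  have hb'R : ∀ r ∈ p.support, b' r = A * p r := by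
    intro r hr
    rw [hb', Finsupp.add_apply, hb0R r hr, Finsupp.smul_apply, smul_eq_mul, zero_add]
  -- the second vector
  set m := Finsupp.mapDomain (J i) p with hm
  set b := b0 + A • ((1 - τ) • p + τ • m) with hb
  have hmsup : m.support ⊆ p.support.image (J i) := map_support _ _
  have hbR : ∀ r ∈ p.support, b r = A * (1 - τ) * p r := by
    intro r hr
    have h1 : m r = 0 := by
      by_contra h
      obtain ⟨s, hs, hsr⟩ := Finset.mem_image.1 (hmsup (Finsupp.mem_support_iff.2 h))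
      exact hJW s hs (hsr ▸ hRW hr)
    rw [hb]
    simp only [Finsupp.add_apply, Finsupp.smul_apply, smul_eq_mul]
    rw [hb0R r hr, h1]
    ring
  have hbJ : ∀ r ∈ p.support, b (J i r) = A * τ * p r := by
    intro r hr
    have h1 : b0 (J i r) = 0 := bo_zero_out hc c (hJW r hr)
    have h2 : p (J i r) = 0 := by
      by_contra h
      exact hJW r hr (hRW (Finsupp.mem_support_iff.2 h))
    have h3 : m (J i r) = p r := map_apply hJinj hr
    rw [hb]
    simp only [Finsupp.add_apply, Finsupp.smul_apply, smul_eq_mul]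
    rw [h1, h2, h3]
    ring
  have hbT : b.support ⊆ T i := by
    have hT := T_mono hmv i hi.le
    have hW : W ⊆ T i := hmv.WT.trans hT
    refine Finsupp.support_add.trans (Finset.union_subset (hb0W.trans hW) ?_)
    refine Finsupp.support_smul.trans ?_
    refine Finsupp.support_add.trans (Finset.union_subset ?_ ?_)
    · exact Finsupp.support_smul.trans (hRW.trans hW)
    · refine Finsupp.support_smul.trans (hmsup.trans ?_)
      intro s hs
      obtain ⟨r, hr, rfl⟩ := Finset.mem_image.1 hs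
      exact hT (hmv.Jm i hi r hr).1
  -- the values
  have hVp : V G p = ∑ r ∈ p.support, p r • G r := V_eq G p
  have hVm : V G m = ∑ r ∈ p.support, p r • G (J i r) := V_map G (J i) p
  have e1 : V G b' + ∑ r ∈ p.support, (τ * b' r) • (G (J i r) - G r) = V G b := by
    have h1 : ∑ r ∈ p.support, (τ * b' r) • (G (J i r) - G r) =
        (A * τ) • V G m - (A * τ) • V G p := by
      rw [hVm, hVp, Finset.smul_sum, Finset.smul_sum, ← Finset.sum_sub_distrib]
      refine Finset.sum_congr rfl fun r hr => ?_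
      rw [hb'R r hr, smul_smul, smul_smul, (by ring : τ * (A * p r) = A * τ * p r)]
      exact smul_sub _ _ _
    rw [h1, hb', hb]
    simp only [map_add, map_smul, smul_add, smul_smul]
    module
  have hdisj : Disjoint p.support (p.support.image (J i)) := by
    rw [Finset.disjoint_left]
    intro r hr h
    obtain ⟨s, hs, rfl⟩ := Finset.mem_image.1 h
    exact hJW s hs (hRW hr)
  have e2 : V G b + ∑ s ∈ p.support ∪ p.support.image (J i), (1 * b s) • (G (φ i s) - G s) =
      V G (b0 + A • lam p J φ τ i) := by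
    rw [Finset.sum_union hdisj, Finset.sum_image hJinj]
    have h1 : ∑ r ∈ p.support, (1 * b r) • (G (φ i r) - G r) =
        (A * (1 - τ)) • V G (gq p φ i) - (A * (1 - τ)) • V G p := by
      have h2 : V G (gq p φ i) = ∑ r ∈ p.support, p r • G (φ i r) := V_map G (φ i) p
      rw [h2, hVp, Finset.smul_sum, Finset.smul_sum, ← Finset.sum_sub_distrib]
      refine Finset.sum_congr rfl fun r hr => ?_
      rw [hbR r hr, smul_smul, smul_smul, one_mul]
      exact smul_sub _ _ _
    have h3 : ∑ r ∈ p.support, (1 * b (J i r)) • (G (φ i (J i r)) - G (J i r)) =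
        (A * τ) • V G (hq p J φ i) - (A * τ) • V G m := by
      have h2 : V G (hq p J φ i) = ∑ r ∈ p.support, p r • G (φ i (J i r)) :=
        V_map G (fun r => φ i (J i r)) p
      rw [h2, hVm, Finset.smul_sum, Finset.smul_sum, ← Finset.sum_sub_distrib]
      refine Finset.sum_congr rfl fun r hr => ?_
      rw [hbJ r hr, smul_smul, smul_smul, one_mul]
      exact smul_sub _ _ _
    rw [h1, h3, hb]
    unfold lam
    simp only [map_add, map_smul, smul_add, smul_smul]
    module
  -- the estimates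
  have f1 := hmv.upJ i hi b' hb'W z hz (fun _ => τ) (fun _ => ⟨hτ0, hτ1⟩)
  rw [e1] at f1
  have f2 := hmv.up i hi b hbT z (Submodule.mem_sup_left hz) (fun _ => 1)
    (fun _ => ⟨zero_le_one, le_rfl⟩)
  rw [e2] at f2
  have f3 := (hAkb X f F G Ψ a ε n u q W E N ϖ J φ T y hS c (fun _ => 0) A z).2
  simp only [zero_smul, Finset.sum_const_zero, add_zero, abs_zero] at f3
  have l1p : l1 p = 1 := l1_pb hpb
  have g1 : l1 b' ≤ l1 b0 + |A| := by
    refine (l1_add _ _).trans ?_
    rw [l1_smul, l1p, mul_one]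
  have g2 : l1 b ≤ l1 b0 + |A| := by
    refine (l1_add _ _).trans ?_
    rw [l1_smul]
    have h1 : l1 ((1 - τ) • p + τ • m) ≤ 1 := by
      refine (l1_add _ _).trans ?_
      rw [l1_smul, l1_smul, l1p, abs_of_nonneg (by linarith : (0 : ℝ) ≤ 1 - τ), abs_of_nonneg hτ0]
      have h2 : l1 m ≤ 1 := (l1_mapDomain _ _).trans_eq l1p
      nlinarith
    have h3 : |A| * l1 ((1 - τ) • p + τ • m) ≤ |A| * 1 :=
      mul_le_mul_of_nonneg_left h1 (abs_nonneg A)
    linarith
  have hε := hS.e0
  have hNr : (2 : ℝ) ≤ N := by exact_mod_cast hN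
  have hεN : ε / N ≤ ε := div_le_self hε.le (by linarith)
  have hl1 : 0 ≤ l1 b + ‖z‖ := by
    have h1 : 0 ≤ l1 b := by
      rw [l1_eq (subset_refl b.support)]
      exact Finset.sum_nonneg fun r _ => abs_nonneg _
    have := norm_nonneg z
    linarith
  set S := ‖V G (b0 + A • p) - Ψ z‖ with hSdef
  have k1 : ε * (l1 b' + ‖z‖) ≤ ε * ((1 + 4 * n / a) * S) :=
    mul_le_mul_of_nonneg_left (by linarith) hε.le
  have k2 : ε / N * (l1 b + ‖z‖) ≤ ε * ((1 + 4 * n / a) * S) :=
    (mul_le_mul_of_nonneg_right hεN hl1).trans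
      (mul_le_mul_of_nonneg_left (by linarith) hε.le)
  calc ‖V G (b0 + A • lam p J φ τ i) - Ψ z‖ ≤ ‖V G b - Ψ z‖ + ε / N * (l1 b + ‖z‖) := f2
    _ ≤ S + ε * (l1 b' + ‖z‖) + ε / N * (l1 b + ‖z‖) := by linarith
    _ ≤ S + ε * ((1 + 4 * n / a) * S) + ε * ((1 + 4 * n / a) * S) := by linarith
    _ = (1 + 2 * ε * (1 + 4 * n / a)) * S := by ring

end Pool.Agent.NL.H47
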