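import Pool.Agent.NL.StmtsB

set_option autoImplicit false

open MeasureTheory Filter Topology

noncomputable section

namespace Pool.Agent.NL.H47

theorem cup_key {X : Type} [NormedAddCommGroup X] [NormedSpace ℝ X]
    {σ : ℕ → ℕ} {w : ℕ → ℕ → ℝ} {Y : ℕ → ℕ → X} {M : ℝ} (hB : NE.Bin σ w Y M)
    {i : ℕ → ℕ} (hP : NE.Path σ i) (n : ℕ) (hn : 1 ≤ n) :
    w (n + 1) (i (n + 1)) ≤ w n (i n) ∧
      w n (i n) * ‖Y (n + 1) (i (n + 1)) - Y n (i n)‖ ≤
        2 * M * (w n (i n) - w (n + 1) (i (n + 1))) := by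
  have hsn := hB.lt n hn
  have hp0 : 0 < w (n + 1) (σ n) := hB.pos (n + 1) (σ n) (by omega)
  have hp1 : 0 < w (n + 1) n := hB.pos (n + 1) n (by omega)
  have hb0 : ‖Y (n + 1) (σ n)‖ ≤ M := hB.bdd (n + 1) (σ n) (by omega)
  have hb1 : ‖Y (n + 1) n‖ ≤ M := hB.bdd (n + 1) n (by omega)
  have hw2 := hB.w2 n hn
  have hy2 := hB.y2 n hn
  obtain ⟨h1, h2⟩ := hP n hn
  by_cases hc : i n = σ n
  · rcases h2 with h2 | ⟨_, h2⟩
    · rw [h2, hc]
      refine ⟨by rw [hw2]; linarith, ?_⟩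
      have hpos : 0 < w n (σ n) := hB.pos n (σ n) hsn
      have he : w n (σ n) • (Y (n + 1) (σ n) - Y n (σ n)) =
          w (n + 1) n • (Y (n + 1) (σ n) - Y (n + 1) n) := by
        rw [smul_sub, hy2, hw2, add_smul, smul_sub]
        abel
      have hnn : w n (σ n) * ‖Y (n + 1) (σ n) - Y n (σ n)‖ =
          w (n + 1) n * ‖Y (n + 1) (σ n) - Y (n + 1) n‖ := by
        have := congrArg norm he
        rwa [norm_smul, norm_smul, Real.norm_of_nonneg hpos.le, Real.norm_of_nonneg hp1.le] at this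
      rw [hnn]
      have h3 : ‖Y (n + 1) (σ n) - Y (n + 1) n‖ ≤ 2 * M := by
        refine (norm_sub_le _ _).trans ?_
        linarith
      have h4 : w n (σ n) - w (n + 1) (σ n) = w (n + 1) n := by rw [hw2]; ring
      rw [h4, mul_comm (2 * M)]
      exact mul_le_mul_of_nonneg_left h3 hp1.le
    · rw [h2, hc]
      refine ⟨by rw [hw2]; linarith, ?_⟩
      have hpos : 0 < w n (σ n) := hB.pos n (σ n) hsn
      have he : w n (σ n) • (Y (n + 1) n - Y n (σ n)) =
          w (n + 1) (σ n) • (Y (n + 1) n - Y (n + 1) (σ n)) := by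
        rw [smul_sub, hy2, hw2, add_smul, smul_sub]
        abel
      have hnn : w n (σ n) * ‖Y (n + 1) n - Y n (σ n)‖ =
          w (n + 1) (σ n) * ‖Y (n + 1) n - Y (n + 1) (σ n)‖ := by
        have := congrArg norm he
        rwa [norm_smul, norm_smul, Real.norm_of_nonneg hpos.le, Real.norm_of_nonneg hp0.le] at this
      rw [hnn]
      have h3 : ‖Y (n + 1) n - Y (n + 1) (σ n)‖ ≤ 2 * M := by
        refine (norm_sub_le _ _).trans ?_
        linarith
      have h4 : w n (σ n) - w (n + 1) n = w (n + 1) (σ n) := by rw [hw2]; ring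
      rw [h4, mul_comm (2 * M)]
      exact mul_le_mul_of_nonneg_left h3 hp0.le
  · have h3 : i (n + 1) = i n := by
      rcases h2 with h2 | ⟨h2, _⟩
      · exact h2
      · exact absurd h2 hc
    rw [h3, hB.w1 n (i n) h1 hc, hB.y1 n (i n) h1 hc]
    simp

theorem cup : CupStmt := by
  intro X _ _ σ w Y M hB i hP hnc
  have hM : 0 ≤ M := (norm_nonneg _).trans (hB.bdd 1 0 (by norm_num))
  have hanti : Antitone (fun n => w (n + 1) (i (n + 1))) :=
    antitone_nat_of_succ_le fun n => (cup_key hB hP (n + 1) (by omega)).1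
  have hpos : ∀ n, 0 < w (n + 1) (i (n + 1)) := fun n =>
    hB.pos (n + 1) (i (n + 1)) (hP (n + 1) (by omega)).1
  have hbdd : BddBelow (Set.range fun n => w (n + 1) (i (n + 1))) :=
    ⟨0, by rintro _ ⟨n, rfl⟩; exact (hpos n).le⟩
  have hlim := tendsto_atTop_ciInf hanti hbdd
  set L : ℝ := ⨅ n, w (n + 1) (i (n + 1)) with hL
  have hLle : ∀ n, L ≤ w (n + 1) (i (n + 1)) := fun n => ciInf_le hbdd n
  have hL0 : 0 ≤ L := le_ciInf fun n => (hpos n).le
  rcases hL0.eq_or_lt with h0 | h0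
  · rw [← h0] at hlim
    exact (tendsto_add_atTop_iff_nat 1).1 hlim
  · exfalso
    apply hnc
    have hbound : ∀ n m : ℕ, n ≤ m →
        L * ‖Y (m + 1) (i (m + 1)) - Y (n + 1) (i (n + 1))‖ ≤
          2 * M * (w (n + 1) (i (n + 1)) - w (m + 1) (i (m + 1))) := by
      intro n m hnm
      induction m, hnm using Nat.le_induction with
      | base => simp
      | succ m hm ih =>
        have h1 := (cup_key hB hP (m + 1) (by omega)).2
        have h2 : L * ‖Y (m + 1 + 1) (i (m + 1 + 1)) - Y (m + 1) (i (m + 1))‖ ≤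
            w (m + 1) (i (m + 1)) * ‖Y (m + 1 + 1) (i (m + 1 + 1)) - Y (m + 1) (i (m + 1))‖ :=
          mul_le_mul_of_nonneg_right (hLle m) (norm_nonneg _)
        have h3 : ‖Y (m + 1 + 1) (i (m + 1 + 1)) - Y (n + 1) (i (n + 1))‖ ≤
            ‖Y (m + 1 + 1) (i (m + 1 + 1)) - Y (m + 1) (i (m + 1))‖ +
              ‖Y (m + 1) (i (m + 1)) - Y (n + 1) (i (n + 1))‖ := norm_sub_le_norm_sub_add_norm_sub _ _ _
        have h4 := mul_le_mul_of_nonneg_left h3 h0.le
        rw [mul_add] at h4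
        linarith
    rw [← cauchySeq_shift 1]
    refine cauchySeq_of_le_tendsto_0' (fun n => 2 * M * (w (n + 1) (i (n + 1)) - L) / L) ?_ ?_
    · intro n m hnm
      rw [dist_comm, dist_eq_norm, le_div_iff₀ h0, mul_comm]
      refine (hbound n m hnm).trans ?_
      refine mul_le_mul_of_nonneg_left ?_ (by positivity)
      have := hLle m
      linarith
    · have h5 : Tendsto (fun n => 2 * M * (w (n + 1) (i (n + 1)) - L) / L) atTop
          (𝓝 (2 * M * (L - L) / L)) := ((hlim.sub_const L).const_mul (2 * M)).div_const L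
      simpa using h5

end Pool.Agent.NL.H47
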