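import Pool.Agent.NL.StmtsB

set_option autoImplicit false

open MeasureTheory Filter Topology

noncomputable section

namespace Pool.Agent.NL.H47

theorem cur (hCui : CuiStmt) (hCug : CugStmt) (hCux : CuxStmt) (hCup : CupStmt)
    (hCus : CusStmt) : CurStmt := by
  intro X _ _ _ W σ w Y M hW hB hY hnc
  have hM : 0 ≤ M := (norm_nonneg _).trans (hB.bdd 1 0 (by norm_num))
  obtain ⟨α, hα, hI⟩ := hCui X σ w Y M hB
  have hG := hCug X σ w Y M α hB hα (fun n hn => ⟨(hI n hn).2.1, (hI n hn).2.2.1⟩)
  -- the endpoints are not in the interior of an interval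
  have hleft : ∀ n, 1 ≤ n → ∀ k, k < n → ∀ v, n ≤ v →
      gg w α Y v (α k) = gg w α Y n (α k) := by
    intro n hn k hk
    refine (hG n hn).2.1 (α k) ?_
    intro j hj
    by_cases hjk : j = k
    · left; rw [hjk]
    · rcases (hI n hn).2.1 k hk j hj (fun h => hjk h.symm) with h | h
      · left
        have := hB.pos n k hk
        linarith
      · right; exact h
  have hright : ∀ n, 1 ≤ n → ∀ k, k < n → ∀ v, n ≤ v →
      gg w α Y v (α k + w n k) = gg w α Y n (α k + w n k) := by
    intro n hn k hk
    refine (hG n hn).2.1 (α k + w n k) ?_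
    intro j hj
    by_cases hjk : j = k
    · right; rw [hjk]
    · have hp := hB.pos n k hk
      rcases (hI n hn).2.1 k hk j hj (fun h => hjk h.symm) with h | h
      · left; exact h
      · right; linarith
  have hC : ∀ x : ℝ, CauchySeq fun n => gg w α Y n x := by
    intro x
    by_cases hx : x ≤ 0 ∨ 1 ≤ x
    · have h1 : ∀ v, 1 ≤ v → gg w α Y v x = gg w α Y 1 x := by
        refine (hG 1 le_rfl).2.1 x ?_
        intro j hj
        have hj0 : j = 0 := by omega
        rw [hj0, hα.zero, hB.one]
        rcases hx with hx | hx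
        · left; exact hx
        · right; linarith
      have h2 : Tendsto (fun n => gg w α Y n x) atTop (𝓝 (gg w α Y 1 x)) := by
        refine tendsto_const_nhds.congr' ?_
        filter_upwards [eventually_ge_atTop 1] with v hv
        exact (h1 v hv).symm
      exact h2.cauchySeq
    · push Not at hx
      obtain ⟨i, hP, hi⟩ := hCux X σ w Y M α hB hα x hx.1.le hx.2
      have hwt := hCup X σ w Y M hB i hP (hnc i hP)
      rw [← cauchySeq_shift 1]
      refine cauchySeq_of_le_tendsto_0' (fun n => 2 * M * w (n + 1) (i (n + 1))) ?_ ?_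
      · intro n m hnm
        have hk := (hP (n + 1) (by omega)).1
        have hv := hleft (n + 1) (by omega) (i (n + 1)) hk (m + 1) (by omega)
        have e1 := (hG (m + 1) (by omega)).1 (α (i (n + 1))) x
        have e2 := (hG (n + 1) (by omega)).1 x (α (i (n + 1)))
        have h3 := hi (n + 1) (by omega)
        rw [dist_eq_norm]
        have e3 : gg w α Y (n + 1) x - gg w α Y (m + 1) x =
            (gg w α Y (n + 1) x - gg w α Y (n + 1) (α (i (n + 1)))) +
              (gg w α Y (m + 1) (α (i (n + 1))) - gg w α Y (m + 1) x) := by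
          rw [hv]; abel
        rw [e3]
        refine (norm_add_le _ _).trans ?_
        rw [abs_of_nonneg (by linarith : (0 : ℝ) ≤ x - α (i (n + 1)))] at e2
        rw [abs_of_nonpos (by linarith : α (i (n + 1)) - x ≤ (0 : ℝ))] at e1
        have e4 : M * (x - α (i (n + 1))) ≤ M * w (n + 1) (i (n + 1)) :=
          mul_le_mul_of_nonneg_left (by linarith) hM
        have e5 : M * -(α (i (n + 1)) - x) = M * (x - α (i (n + 1))) := by ring
        linarith
      · have h5 : Tendsto (fun n => 2 * M * w (n + 1) (i (n + 1))) atTop (𝓝 (2 * M * 0)) :=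
          (((tendsto_add_atTop_iff_nat 1).2 hwt)).const_mul (2 * M)
        simpa using h5
  choose f hf using fun x => cauchySeq_tendsto_of_complete (hC x)
  refine ⟨f, ?_, ?_, ?_⟩
  · intro t
    refine hW.mem_of_tendsto (hf t) (Filter.Eventually.of_forall fun n => ?_)
    show gg w α Y n t ∈ (W : Set X)
    unfold gg
    exact W.sum_mem fun j hj => W.smul_mem _ (hY n j (Finset.mem_range.1 hj))
  · refine ⟨⟨M, hM⟩, LipschitzWith.of_dist_le_mul fun x y => ?_⟩
    rw [dist_eq_norm, Real.dist_eq]
    show ‖f x - f y‖ ≤ M * |x - y|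
    refine le_of_tendsto ((hf x).sub (hf y)).norm ?_
    filter_upwards [eventually_ge_atTop 1] with n hn
    exact (hG n hn).1 x y
  · intro hae
    have hnd : ∀ x : ℝ, x ∈ Set.Ico (0 : ℝ) 1 → ¬ DifferentiableAt ℝ f x := by
      intro x hx hd
      obtain ⟨i, hP, hi⟩ := hCux X σ w Y M α hB hα x hx.1 hx.2
      have hwt := hCup X σ w Y M hB i hP (hnc i hP)
      refine hnc i hP (hCus X f x (fun n => α (i n)) (fun n => w n (i n)) (fun n => Y n (i n)) hd
        ?_ hwt ?_)
      · intro n hn
        exact ⟨hB.pos n (i n) (hP n hn).1, (hi n hn).1, (hi n hn).2.le⟩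
      · intro n hn
        have hk := (hP n hn).1
        have e1 : f (α (i n)) = gg w α Y n (α (i n)) := by
          refine tendsto_nhds_unique (hf (α (i n))) (tendsto_const_nhds.congr' ?_)
          filter_upwards [eventually_ge_atTop n] with v hv
          exact (hleft n hn (i n) hk v hv).symm
        have e2 : f (α (i n) + w n (i n)) = gg w α Y n (α (i n) + w n (i n)) := by
          refine tendsto_nhds_unique (hf (α (i n) + w n (i n))) (tendsto_const_nhds.congr' ?_)
          filter_upwards [eventually_ge_atTop n] with v hv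
          exact (hright n hn (i n) hk v hv).symm
        show f (α (i n) + w n (i n)) - f (α (i n)) = w n (i n) • Y n (i n)
        rw [e1, e2]
        exact (hG n hn).2.2 (i n) hk
    have h0 : volume (Set.Ico (0 : ℝ) 1) = 0 :=
      measure_mono_null (fun x hx => hnd x hx) (ae_iff.1 hae)
    rw [Real.volume_Ico] at h0
    simp at h0

end Pool.Agent.NL.H47
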